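import Mathlib
import Pool.Agent.R241.SSB

/-!
# A transitive point without a transitive partner

We show that there are a weakly mixing system `(X, T)` and a transitive point `x` of it such that
`(x, y)` is not a transitive point of `(X × X, T × T)` for every `y`.

The system is a spacing shift: the sequences of zeros and ones such that the differences of the
positions of the ones belong to `P`. The set `P` is obtained together with the point `x = 1_A` by a
Baire category argument in the space of the pairs `(P, A)` such that `A` is disjoint from `P`,
`0 ∉ A` and `A - A ⊂ P ∪ - P ∪ {0}`: for a generic pair, `P` is thick, so that the shift is weakly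
mixing, and every finite set with differences in `P` appears in `A`, so that `x` is transitive. If
`(x, y)` is a transitive point, then `y j = 1` for some `j`, and there is `n` with `x n = 1` and
`y (n + j) = 1`, so that `n ∈ A` and `n ∈ P`, a contradiction.
-/

set_option autoImplicit false

open Set Pool.Agent.R241.SS

namespace Pool.Agent.Results.MP_a8308c_an.NoPartner

/-- There are a compact metric space `X` with more than one point and without isolated points, a
continuous surjection `T : X → X` such that `T × T` has a point with a dense forward orbit, and a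
point `x` with a dense forward orbit under `T` such that for no point `y` the pair `(x, y)` has a
dense forward orbit under `T × T`. -/
theorem result : ∃ (X : Type) (_ : MetricSpace X) (_ : CompactSpace X) (T : X → X),
    Nontrivial X ∧ (∀ x : X, ¬ IsOpen ({x} : Set X)) ∧ Continuous T ∧ Function.Surjective T ∧
    (∃ z : X × X, IsTransPt (Prod.map T T) z) ∧
    ∃ x : X, IsTransPt T x ∧ ∀ y : X, ¬ IsTransPt (Prod.map T T) (x, y) := by
  obtain ⟨P, hPt, hz, x, hx, hy⟩ := mainB
  have key : ∀ t : TopologicalSpace (Sig P), t = instTopologicalSpaceSubtype →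
      @CompactSpace _ t ∧ (∀ x, ¬ @IsOpen _ t {x}) ∧ @Continuous _ _ t t (shift P) ∧
      (∃ z, @IsTransPt _ (@instTopologicalSpaceProd _ _ t t) (Prod.map (shift P) (shift P)) z) ∧
      ∃ x, @IsTransPt _ t (shift P) x ∧
        ∀ y, ¬ @IsTransPt _ (@instTopologicalSpaceProd _ _ t t)
          (Prod.map (shift P) (shift P)) (x, y) := by
    rintro _ rfl
    refine ⟨inferInstance, ?_, continuous_shift P, hz, x, hx, hy⟩
    intro x hx
    obtain ⟨m, hm⟩ := exists_cyl_sig (hx.mem_nhds rfl)
    obtain ⟨n, hmn, hn, hgl⟩ := exists_glue hPt (m + 1) 0
    have h1 := hm ⟨_, hgl _ _ x.2 (adm_single P 0)⟩ fun i hi => by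
      simp only
      exact glue_left (by omega)
    have h2 := hm ⟨_, hgl _ _ x.2 (adm_zero P)⟩ fun i hi => by
      simp only
      exact glue_left (by omega)
    have h3 := congrArg (fun y => y.1 (0 + n))
      ((mem_singleton_iff.1 h1).trans (mem_singleton_iff.1 h2).symm)
    simp only [glue_right hmn (show 0 < m + 1 by omega)] at h3
    simp at h3
  obtain ⟨M, hM⟩ : ∃ M : MetricSpace (Sig P),
      M.toPseudoMetricSpace.toUniformSpace.toTopologicalSpace = instTopologicalSpaceSubtype :=
    ⟨sigMetric P, sigMetric_top P⟩
  obtain ⟨h1, h2, h3, h4, h5⟩ := key _ hM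
  refine ⟨Sig P, M, h1, shift P, ?_, h2, h3, shift_surjective P, h4, h5⟩
  refine ⟨⟨_, adm_single P 0⟩, ⟨_, adm_zero P⟩, fun h => ?_⟩
  have := congrArg (fun y => y.1 0) h
  simp at this

end Pool.Agent.Results.MP_a8308c_an.NoPartner
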